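import Pool.Agent.H164R2.Strong
import Pool.Agent.Helper998.Near.Flow
import Pool.Agent.Helper998.Near.InsideDom

set_option autoImplicit false

open Finset

namespace Pool.Agent.Results.MP_ff63d6_co.EveryCircuit

open Pool.Agent.Helper347.Sab
open Pool.Agent.Helper998.Near (Rch join rch_symm rch_mono circ_reach even_iff_cast dg_split
  ev_circuit one_off)

/-!
Strong circuit double covers of cubic graphs of circumference at least n - 1: every circuit of
such a graph belongs to a circuit double cover.

Let A be a circuit missing at most one vertex. If the missed vertex is not on C this is the known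
case V(C) ⊆ V(A). Otherwise every component K of G - E(C) has, after contraction of C, the spanning
closed trail A ∩ K, hence a nowhere-zero 4-flow, and the theorem H164R2.strong applies.
-/

variable {V E : Type} [Fintype V] [DecidableEq V] [Fintype E] [DecidableEq E]

/-- The circumference of G is at least (number of vertices) - 1: some circuit has at least that
many edges. -/
def NearHamiltonian (G : MGraph V E) : Prop :=
  ∃ A : Finset E, IsCircuit G A ∧ Fintype.card V ≤ A.card + 1

/-- completing X by a part of F to an even set, when all odd vertices of X are joined to p0 in F -/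
theorem complete (G : MGraph V E) (F X : Finset E) (p0 : V)
    (h : ∀ v, ¬ Even (dg G X v) → Rch G F v p0) :
    ∃ J ⊆ F, ∀ v, Even (dg G X v + dg G J v) := by
  obtain ⟨J, hJF, hJ⟩ := join G F (fun v => ((dg G X v : ℕ) : ZMod 2)) (fun _ => p0)
    (fun v hv => h v (fun h1 => hv ((even_iff_cast _).1 h1)))
  refine ⟨J, hJF, fun x => ?_⟩
  have hJ' : ((dg G J x : ℕ) : ZMod 2) = ((dg G X x : ℕ) : ZMod 2) := by
    rw [hJ x]
    have h1 : ∑ v, ((dg G X v : ℕ) : ZMod 2) = 0 := by
      rw [← Nat.cast_sum]
      exact (even_iff_cast _).1 (handshake G X)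
    by_cases hx : x = p0
    · simp [hx, h1]
    · simp [hx]
  rw [even_iff_cast, Nat.cast_add, hJ']
  exact CharTwo.add_self_eq_zero _

/-- the union with a disjoint set -/
theorem ev_union (G : MGraph V E) (X J : Finset E) (hd : Disjoint X J)
    (h : ∀ v, Even (dg G X v + dg G J v)) : Ev G (X ∪ J) := by
  intro v
  have h1 := dg_sdiff (G := G) (X := X ∪ J) (Y := X) subset_union_left v
  have h3 : (X ∪ J) \ X = J := by
    rw [union_sdiff_left]
    exact sdiff_eq_self_of_disjoint hd.symm
  rw [h3] at h1
  rw [← h1, add_comm]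
  exact h v

/-- a symmetric difference -/
theorem ev_symm (G : MGraph V E) (X J : Finset E)
    (h : ∀ v, Even (dg G X v + dg G J v)) : Ev G (symmDiff X J) := by
  intro v
  have h1 := dg_symmDiff G X J v
  have h2 := h v
  rw [Nat.even_iff] at *
  omega

/-- The case in which every vertex missed by A is on C. -/
theorem on_case (G : MGraph V E) (hG : IsCubic G) (C A : Finset E) (hC : IsCircuit G C)
    (hA : IsCircuit G A) (hlen : Fintype.card V ≤ A.card + 1)
    (hv : ∀ v, dg G A v = 0 → dg G C v = 2) :
    ∃ F : Multiset (Finset E), IsCDC G F ∧ C ∈ F := by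
  classical
  -- a vertex p0 of C, and a vertex of C on A
  obtain ⟨e0, he0⟩ := hC.1
  obtain ⟨p, q, hpq, hends⟩ := exists_ends G e0
  have hp2 : dg G C p = 2 := (hC.2.1 p).resolve_left (by
    have := dg_pos_of_mem (G := G) he0 (show p ∈ G.ends e0 by rw [hends]; simp)
    omega)
  have hq2 : dg G C q = 2 := (hC.2.1 q).resolve_left (by
    have := dg_pos_of_mem (G := G) he0 (show q ∈ G.ends e0 by rw [hends]; simp)
    omega)
  obtain ⟨y, hyC, hyA⟩ : ∃ y, dg G C y = 2 ∧ dg G A y = 2 := by
    rcases hA.2.1 p with h | h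
    · refine ⟨q, hq2, (hA.2.1 q).resolve_left fun h' => ?_⟩
      exact hpq (one_off G A hA hlen p q h h')
    · exact ⟨p, hp2, h⟩
  have hmain := Pool.Agent.H164R2.strong G univ C (subset_univ _) (fun v => by rw [hG v]) hC.2.1 ?_
  · obtain ⟨F, h1, h2, h3⟩ := hmain
    exact ⟨F, ⟨h1, fun e => by rw [h2 e, if_pos (mem_univ e)]⟩, h3 C hC (Subset.refl _)⟩
  intro v
  -- the edges of the component of v
  obtain ⟨K, hK⟩ : ∃ K : Finset E, K = univ.filter fun f =>
      f ∉ C ∧ ∀ u ∈ G.ends f, Rch G (univ \ C) v u := ⟨_, rfl⟩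
  have hKm : ∀ f, f ∈ K ↔ f ∉ C ∧ ∀ u ∈ G.ends f, Rch G (univ \ C) v u := by
    intro f; rw [hK]; simp
  have hKm' : ∀ f, f ∉ C → ∀ u ∈ G.ends f, Rch G (univ \ C) v u → f ∈ K := by
    intro f hf u hu hvu
    rw [hKm]
    refine ⟨hf, fun w hw => ?_⟩
    by_cases huw : u = w
    · rw [← huw]; exact hvu
    · exact hvu.tail ⟨f, mem_sdiff.2 ⟨mem_univ _, hf⟩, (Sym2.mem_and_mem_iff huw).1 ⟨hu, hw⟩⟩
  have hCp : ∀ x, dg G C x = 2 → Rch G C x p := fun x hx => circ_reach G C hC x p hx hp2
  -- the part of A in K
  have hoddA : ∀ x, ¬ Even (dg G (A ∩ K) x) → dg G C x = 2 := by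
    intro x hx
    refine (hC.2.1 x).resolve_left fun h0 => hx ?_
    -- x is off C
    by_cases hr : Rch G (univ \ C) v x
    · have h1 : dg G (A ∩ K) x = dg G A x := by
        unfold dg
        congr 1
        ext f
        simp only [mem_filter, mem_inter]
        constructor
        · rintro ⟨⟨h1, _⟩, h2⟩; exact ⟨h1, h2⟩
        · rintro ⟨h1, h2⟩
          refine ⟨⟨h1, hKm' f ?_ x h2 hr⟩, h2⟩
          intro hf
          have := dg_pos_of_mem (G := G) hf h2
          omega
      rw [h1]
      exact ev_circuit G A hA x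
    · have h1 : dg G (A ∩ K) x = 0 := by
        by_contra hcon
        obtain ⟨f, hf, hxf⟩ := exists_mem_of_dg_pos (G := G) (X := A ∩ K) (v := x) (by omega)
        exact hr (((hKm f).1 (mem_inter.1 hf).2).2 x hxf)
      rw [h1]
      exact Even.zero
  obtain ⟨J1, hJ1, hJ1e⟩ := complete G C (A ∩ K) p (fun x hx => hCp x (hoddA x hx))
  -- odd vertices of the rest of K are joined to C within C ∪ (A ∩ K)
  have hwalk : ∀ x, dg G C x = 0 → Rch G (univ \ C) v x → Rch G (C ∪ (A ∩ K)) x p := by
    intro x hx hvx
    have hxA : dg G A x = 2 := (hA.2.1 x).resolve_left fun h => by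
      have := hv x h
      omega
    have key : ∀ z, Rch G A x z → (dg G C z = 0 ∧ Rch G (univ \ C) v z ∧
        Rch G (C ∪ (A ∩ K)) x z) ∨ Rch G (C ∪ (A ∩ K)) x p := by
      intro z hz
      induction hz with
      | refl => exact Or.inl ⟨hx, hvx, Relation.ReflTransGen.refl⟩
      | tail h0 h1 ih =>
        rename_i z z'
        clear h0
        rcases ih with ⟨i1, i2, i3⟩ | ih
        · obtain ⟨f, hfA, hf⟩ := h1
          have hzf : z ∈ G.ends f := by rw [hf]; exact Sym2.mem_mk_left _ _
          have hzf' : z' ∈ G.ends f := by rw [hf]; exact Sym2.mem_mk_right _ _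
          have hfC : f ∉ C := by
            intro h
            have := dg_pos_of_mem (G := G) h hzf
            omega
          have hfK : f ∈ K := hKm' f hfC z hzf i2
          have h3 : Rch G (C ∪ (A ∩ K)) x z' :=
            i3.tail ⟨f, mem_union_right _ (mem_inter.2 ⟨hfA, hfK⟩), hf⟩
          rcases hC.2.1 z' with h4 | h4
          · exact Or.inl ⟨h4, ((hKm f).1 hfK).2 z' hzf', h3⟩
          · exact Or.inr (h3.trans (rch_mono G C _ subset_union_left _ _ (hCp z' h4)))
        · exact Or.inr ih
    rcases key y (circ_reach G A hA x y hxA hyA) with h | h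
    · omega
    · exact h
  obtain ⟨J2, hJ2, hJ2e⟩ := complete G (C ∪ (A ∩ K)) (K \ A) p (by
    intro x hx
    rcases hC.2.1 x with h0 | h0
    · apply hwalk x h0
      by_contra hr
      apply hx
      have h1 : dg G (K \ A) x = 0 := by
        by_contra hcon
        obtain ⟨f, hf, hxf⟩ := exists_mem_of_dg_pos (G := G) (X := K \ A) (v := x) (by omega)
        exact hr (((hKm f).1 (mem_sdiff.1 hf).1).2 x hxf)
      rw [h1]
      exact Even.zero
    · exact rch_mono G C _ subset_union_left _ _ (hCp x h0))
  have hd1 : Disjoint (A ∩ K) J1 := by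
    rw [disjoint_left]
    intro f hf hf'
    exact ((hKm f).1 (mem_inter.1 hf).2).1 (hJ1 hf')
  have hd2 : Disjoint (K \ A) J2 := by
    rw [disjoint_left]
    intro f hf hf'
    rcases mem_union.1 (hJ2 hf') with h | h
    · exact ((hKm f).1 (mem_sdiff.1 hf).1).1 h
    · exact (mem_sdiff.1 hf).2 (mem_inter.1 h).1
  refine ⟨(A ∩ K) ∪ J1, (K \ A) ∪ J2, ev_union G _ _ hd1 hJ1e, ev_union G _ _ hd2 hJ2e,
    subset_univ _, subset_univ _, ?_, ?_⟩
  · intro f hfC hf
    have hfK : f ∈ K := by
      rcases hf with h | h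
      · rcases mem_union.1 h with h | h
        · exact (mem_inter.1 h).2
        · exact absurd (hJ1 h) hfC
      · rcases mem_union.1 h with h | h
        · exact (mem_sdiff.1 h).1
        · rcases mem_union.1 (hJ2 h) with h | h
          · exact absurd h hfC
          · exact (mem_inter.1 h).2
    exact ((hKm f).1 hfK).2
  · intro f _ hfC hf
    have hfK : f ∈ K := (hKm f).2 ⟨hfC, hf⟩
    by_cases h : f ∈ A
    · exact Or.inl (mem_union_left _ (mem_inter.2 ⟨h, hfK⟩))
    · exact Or.inr (mem_union_left _ (mem_sdiff.2 ⟨hfK, h⟩))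

/-- Let G be a cubic multigraph of order n with circumference at least n - 1. Then every circuit of
G belongs to a circuit double cover of G. -/
theorem result {V E : Type} [Fintype V] [DecidableEq V] [Fintype E] [DecidableEq E]
    (G : MGraph V E) (hG : IsCubic G) (hn : NearHamiltonian G)
    (C : Finset E) (hC : IsCircuit G C) :
    ∃ F : Multiset (Finset E), IsCDC G F ∧ C ∈ F := by
  obtain ⟨A, hA, hlen⟩ := id hn
  by_cases hv : ∀ v, dg G A v = 0 → dg G C v = 2
  · exact on_case G hG C A hC hA hlen hv
  · push Not at hv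
    obtain ⟨x, hx, hCx⟩ := hv
    refine MP_ff63d6_co.InsideDominating.result G hG hn C hC ⟨A, hA, ?_, Or.inr (by omega)⟩
    intro v hv2
    rcases hA.2.1 v with h0 | h0
    · have := one_off G A hA hlen x v hx h0
      subst this
      exact absurd hv2 hCx
    · exact h0

end Pool.Agent.Results.MP_ff63d6_co.EveryCircuit
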